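import Pool.Agent.D0H71.CM.Keep
import Pool.Agent.Results.MP_c9768e_nt.GrowingDegreeTuples

/-!
# Elliptic logarithms, quasi-logarithms and logarithms at the values of compositions of multiplicative functions

Let `L` be a lattice with rational invariants, `ω_0 = 1, ω_1, …, ω_m` algebraic numbers (for instance an integral basis of a
number field), `θ_1, …, θ_r` distinct natural numbers. Let `F_{il}` (`1 ≤ i ≤ k`, `0 ≤ l ≤ m`) be ANY compositions
`f_1 ∘ f_2 ∘ ... ∘ f_s` of positive multiplicative functions of at most polynomial growth which are at most linear and injective at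
the large primes: for example `F_{il}(u) = φ(σ(φ(u)))`. For `u ∈ [1, N]^(k (m + 1))` let `α_i = ∑_l F_{il}(u_{il}) ω_l`, for
instance `α_i = φ(σ(u_{i0})) + σ(φ(u_{i1})) √2`. We show that for all these `u` but `N^(k (m + 1)) / (log N)^U`, for every `U`, all
elliptic logarithms `p` with `℘(p) = α_i + θ_j`, the numbers `ζ(p)` and all logarithms of the `α_i + θ_j` satisfy with the given
numbers `w` no nontrivial relation of degree at most `δ` over any number field of degree at most `δ`.

The starting theorem `MultiplicativeValues` of this problem is the case of single multiplicative functions. A composition is not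
multiplicative, and nothing was known about its fibres: the values `φ(σ(φ(u)))` are taken with very large multiplicities. The tool is
`Pool.Agent.D0H71.CM`: for almost all `u` one has `F u = k v` with `k ≤ N^η` and `v` squarefree, coprime to `k`, free of prime
factors below `(log log N)^B`, and with few prime factors between this bound and small powers of `N`; the property passes from `F` to
`f ∘ F`, and it bounds the number of `v` with a given `f (v)` outside a set of `u` of size `N / (log N)^U`.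
-/

set_option autoImplicit false

open scoped PeriodPair

namespace Pool.Agent.D0H71.OLD.C9768eIteratedFunctions

open Pool.Agent.N733.TG (LM lm_totient lm_sigma)
open Pool.Agent.D0H71.CM (Comp av_comp ckeep_tuples2)
open Pool.Agent.Results.MP_c9768e_nt.GrowingDegreeTuples (Related)

/-- **Elliptic logarithms, quasi-logarithms and logarithms at the values of compositions of multiplicative functions.** Let `L`
be a lattice with rational invariants `g₂`, `g₃`, let `ω_0 = 1, ω_1, …, ω_m` be algebraic numbers (for instance an integral basis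
of a number field) and `θ_1, …, θ_r` distinct natural numbers. Let `k ≥ 1` and let `F_{il}`, `1 ≤ i ≤ k`, `0 ≤ l ≤ m`, be
compositions of functions of the class `LM` (multiplicative and positive, of at most polynomial growth, with `f p ≤ M p` at the
large primes, and injective there). Let
`Q`, `δ`, `U` be natural numbers. For all large `N` and all `w_1, …, w_Q ∈ ℂ`, for all `u` with `1 ≤ u_{il} ≤ N` but
`N^(k (m + 1)) / (log N)^U`, all `F_{il}(u_{il})` are at least `2` and the tuple of the vectors `(F_{il}(u_{il}))_l` is not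
related. Euler's function and the sum of the divisors belong to the class `LM`. -/
theorem result :
    (∀ (L : PeriodPair) (a b : ℚ), L.g₂ = a → L.g₃ = b → ∀ (m r : ℕ) (ω : Fin (m + 1) → ℂ),
      (∀ j, IsAlgebraic ℚ (ω j)) → ω 0 = 1 → ∀ θ : Fin r → ℕ, Function.Injective θ →
      ∀ k Q : ℕ, 1 ≤ k → ∀ F : Fin k → Fin (m + 1) → ℕ → ℕ, (∀ i l, Comp (F i l)) → ∀ δ U : ℕ,
      ∃ N₀ : ℕ, ∀ N : ℕ, N₀ ≤ N → ∀ w : Fin Q → ℂ,
        ({u : Fin k → Fin (m + 1) → ℕ | (∀ i l, 1 ≤ u i l ∧ u i l ≤ N) ∧
          ¬ ((∀ i l, 2 ≤ F i l (u i l)) ∧ ¬ Related L δ w ω θ fun i l => (F i l (u i l) : ℤ))}.ncard : ℝ) ≤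
          (N : ℝ) ^ (k * (m + 1)) / Real.log N ^ U) ∧
    LM Nat.totient ∧ LM (fun m => ∑ d ∈ m.divisors, d) := by
  refine ⟨fun L a b ha hb m r ω hω hω0 θ hθ k Q hk F hF δ U => ?_, lm_totient, lm_sigma⟩
  obtain ⟨C, h⟩ := GrowingDegreeTuples.result L a b ha hb ω hω hω0 θ hθ k Q
  have hc : (0 : ℝ) < 1 / ((δ : ℝ) + 2) ^ C := by positivity
  have hK : 1 ≤ k * (m + 1) := Nat.one_le_iff_ne_zero.2 (by positivity)
  obtain ⟨e, he⟩ : ∃ e : Fin k × Fin (m + 1) ≃ Fin (k * (m + 1)), e = finProdFinEquiv := ⟨_, rfl⟩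
  obtain ⟨F', hF'⟩ : ∃ F' : Fin (k * (m + 1)) → ℕ → ℕ, F' = fun t => F (e.symm t).1 (e.symm t).2 := ⟨_, rfl⟩
  have hF'e : ∀ i l, F' (e (i, l)) = F i l := fun i l => by rw [hF']; simp
  obtain ⟨N₀, hN₀⟩ := ckeep_tuples2 (F := F') hK (fun t => by rw [hF']; exact av_comp (hF _ _)) hc U (C : ℝ)
  refine ⟨N₀, fun N hN w => ?_⟩
  have h1 := hN₀ N hN {v : Fin (k * (m + 1)) → ℕ | Related L δ w ω θ fun i l => (v (e (i, l)) : ℤ)} (fun X hX => ?_)
  · refine le_trans ?_ h1
    have hfin : {v : Fin (k * (m + 1)) → ℕ | (∀ t, 1 ≤ v t ∧ v t ≤ N) ∧ ¬ ((∀ t, 2 ≤ F' t (v t)) ∧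
        (fun t => F' t (v t)) ∉ {v : Fin (k * (m + 1)) → ℕ | Related L δ w ω θ fun i l => (v (e (i, l)) : ℤ)})}.Finite := by
      apply (Set.Finite.pi' fun _ : Fin (k * (m + 1)) => Set.finite_Icc 1 N).subset
      rintro v ⟨h1, _⟩
      exact h1
    have hsub : {u : Fin k → Fin (m + 1) → ℕ | (∀ i l, 1 ≤ u i l ∧ u i l ≤ N) ∧
          ¬ ((∀ i l, 2 ≤ F i l (u i l)) ∧ ¬ Related L δ w ω θ fun i l => (F i l (u i l) : ℤ))} ⊆
        (fun (v : Fin (k * (m + 1)) → ℕ) (i : Fin k) (l : Fin (m + 1)) => v (e (i, l))) ''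
        {v : Fin (k * (m + 1)) → ℕ | (∀ t, 1 ≤ v t ∧ v t ≤ N) ∧ ¬ ((∀ t, 2 ≤ F' t (v t)) ∧
        (fun t => F' t (v t)) ∉ {v : Fin (k * (m + 1)) → ℕ | Related L δ w ω θ fun i l => (v (e (i, l)) : ℤ)})} := by
      rintro u ⟨hu1, hu2⟩
      refine ⟨fun t => u (e.symm t).1 (e.symm t).2, ⟨fun t => hu1 _ _, fun ⟨h3, h4⟩ => hu2 ⟨fun i l => ?_, fun h5 => h4 ?_⟩⟩,
        by funext i l; simp⟩
      · have := h3 (e (i, l))
        rw [hF'e] at this
        simpa using this
      · rw [Set.mem_ofPred_eq]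
        have h6 : (fun (i : Fin k) (l : Fin (m + 1)) => ((F' (e (i, l)) (u (e.symm (e (i, l))).1 (e.symm (e (i, l))).2) : ℕ) : ℤ)) =
            fun i l => (F i l (u i l) : ℤ) := by
          funext i l
          rw [hF'e, Equiv.symm_apply_apply]
        rw [h6]
        exact h5
    have h2 := (Set.ncard_le_ncard hsub (hfin.image _)).trans (Set.ncard_image_le hfin)
    exact_mod_cast h2
  · obtain ⟨hf, hle⟩ := h δ w X hX
    refine le_trans ?_ hle
    have hsub : (fun (v : Fin (k * (m + 1)) → ℕ) (i : Fin k) (l : Fin (m + 1)) => (v (e (i, l)) : ℤ)) ''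
        {v : Fin (k * (m + 1)) → ℕ | (∀ t, 2 ≤ v t ∧ v t ≤ X) ∧
          v ∈ {v : Fin (k * (m + 1)) → ℕ | Related L δ w ω θ fun i l => (v (e (i, l)) : ℤ)}} ⊆
        {n : Fin k → Fin (m + 1) → ℤ | (∀ i l, |n i l| ≤ X) ∧ Related L δ w ω θ n} := by
      rintro _ ⟨v, ⟨hv1, hv2⟩, rfl⟩
      refine ⟨fun i l => ?_, hv2⟩
      rw [Nat.abs_cast]
      exact_mod_cast (hv1 (e (i, l))).2
    have hinj : Function.Injective (fun (v : Fin (k * (m + 1)) → ℕ) (i : Fin k) (l : Fin (m + 1)) => (v (e (i, l)) : ℤ)) := by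
      intro u v huv
      funext t
      have := congrFun (congrFun huv (e.symm t).1) (e.symm t).2
      simp only [Prod.mk.eta, Equiv.apply_symm_apply] at this
      exact_mod_cast this
    have h2 := Set.ncard_le_ncard hsub hf
    rw [Set.ncard_image_of_injective _ hinj] at h2
    exact_mod_cast h2

end Pool.Agent.D0H71.OLD.C9768eIteratedFunctions
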